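import Pool.Agent.Y798.FC.Stm2

/-! Project FC: the structure of the law. -/

set_option autoImplicit false

namespace Pool.Agent.H70FC

open MeasureTheory UnitAddTorus Pool.Agent.Y139.ID Pool.Agent.Y798.FC Filter Topology
  ComplexConjugate

variable {J : Type} [Fintype J]

theorem trig_mul_e (α : J → ℤ) (c : (J → ℤ) →₀ ℤ) :
    ∃ c' : (J → ℤ) →₀ ℤ, ∀ x, trig c' x = mFourier α x * trig c x := by
  classical
  induction c using Finsupp.induction_linear with
  | zero => exact ⟨0, fun x => by rw [trig_zero, mul_zero]⟩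
  | add f g hf hg =>
    obtain ⟨f', hf⟩ := hf
    obtain ⟨g', hg⟩ := hg
    exact ⟨f' + g', fun x => by rw [trig_add, trig_add, hf, hg, mul_add]⟩
  | single n a =>
    exact ⟨Finsupp.single (α + n) a, fun x => by
      rw [trig_single, trig_single, mFourier_add]
      ring⟩

theorem trig_neg (c : (J → ℤ) →₀ ℤ) (x : UnitAddTorus J) : trig (-c) x = -trig c x := by
  have h := trig_add c (-c) x
  rw [add_neg_cancel, trig_zero] at h
  linear_combination -h

theorem prod_trig (L : List (J → ℤ)) : ∃ c : (J → ℤ) →₀ ℤ, ∀ x,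
    trig c x = (L.map fun α => 1 - mFourier α x).prod := by
  induction L with
  | nil =>
    refine ⟨Finsupp.single 0 1, fun x => ?_⟩
    rw [trig_single, mFourier_zero]
    simp
  | cons α L ih =>
    obtain ⟨c, hc⟩ := ih
    obtain ⟨c', hc'⟩ := trig_mul_e α c
    refine ⟨c + -c', fun x => ?_⟩
    rw [trig_add, trig_neg, hc', hc, List.map_cons, List.prod_cons]
    ring

theorem dens_trig (Φ : Finset (J → ℤ)) : ∃ c : (J → ℤ) →₀ ℤ,
    (∀ x, (dens Φ x : ℂ) = trig c x) ∧ ∀ n, dC Φ n = (c (-n) : ℂ) := by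
  obtain ⟨c, hc⟩ := prod_trig (Φ.toList ++ Φ.toList.map fun α => -α)
  have h1 : ∀ x, (dens Φ x : ℂ) = trig c x := fun x => by rw [hc, prod_roots']
  refine ⟨c, h1, fun n => ?_⟩
  rw [← int_trig c n]
  unfold dC
  simp only [h1]

theorem one_of_re {z : ℂ} (h1 : ‖z‖ = 1) (h2 : z.re = 1) : z = 1 := by
  have h3 : z.re * z.re + z.im * z.im = 1 := by
    have := Complex.normSq_eq_norm_sq z
    rw [Complex.normSq_apply, h1] at this
    simpa using this
  have h4 : z.im = 0 := by
    rw [h2] at h3
    have : z.im * z.im = 0 := by linarith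
    exact mul_self_eq_zero.1 this
  exact Complex.ext (by simpa using h2) (by simpa using h4)

theorem ae_of_int (μ : Measure (UnitAddTorus J)) [IsFiniteMeasure μ] {w : UnitAddTorus J → ℝ}
    (hw : Continuous w) (hw0 : ∀ x, 0 ≤ w x) {ε : ℝ} (hε : ε = 1 ∨ ε = -1) {γ : J → ℤ}
    (h : ∫ x, mFourier γ x * (w x : ℂ) ∂μ = ((ε * ∫ x, w x ∂μ : ℝ) : ℂ)) :
    ∀ᵐ x ∂μ, w x = 0 ∨ mFourier γ x = (ε : ℂ) := by
  have hε2 : ε * ε = 1 := by rcases hε with h | h <;> rw [h] <;> norm_num
  have hεa : |ε| = 1 := by rcases hε with h | h <;> rw [h] <;> norm_num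
  have hre : ∀ x, |(mFourier γ x).re| ≤ 1 := fun x =>
    (Complex.abs_re_le_norm _).trans (le_of_eq (norm_mF γ x))
  have hwc : Continuous fun x => mFourier γ x * (w x : ℂ) :=
    (mFourier γ).continuous.mul (Complex.continuous_ofReal.comp hw)
  have hgc : Continuous fun x => (1 - ε * (mFourier γ x).re) * w x :=
    (continuous_const.sub (continuous_const.mul
      (Complex.continuous_re.comp (mFourier γ).continuous))).mul hw
  have hg0 : ∀ x, 0 ≤ (1 - ε * (mFourier γ x).re) * w x := by
    intro x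
    refine mul_nonneg ?_ (hw0 x)
    have h1 : |ε * (mFourier γ x).re| ≤ 1 := by
      rw [abs_mul, hεa, one_mul]
      exact hre x
    linarith [(abs_le.1 h1).2]
  have e2 := integral_re (𝕜 := ℂ) (μ := μ) (f := fun x => mFourier γ x * (w x : ℂ))
    (integrable_cont _ hwc)
  have e3 : RCLike.re (∫ x, mFourier γ x * (w x : ℂ) ∂μ) =
    (∫ x, mFourier γ x * (w x : ℂ) ∂μ).re := rfl
  have e4 : ∫ x, (mFourier γ x).re * w x ∂μ = ε * ∫ x, w x ∂μ := by
    rw [e3, h, Complex.ofReal_re] at e2
    rw [← e2]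
    refine integral_congr_ae (Eventually.of_forall fun x => ?_)
    change (mFourier γ x).re * w x = (mFourier γ x * (w x : ℂ)).re
    rw [mul_comm (mFourier γ x) _, Complex.re_ofReal_mul, mul_comm]
  have hi : ∫ x, (1 - ε * (mFourier γ x).re) * w x ∂μ = 0 := by
    have h2 : ∀ x, (1 - ε * (mFourier γ x).re) * w x = w x - ε * ((mFourier γ x).re * w x) :=
      fun x => by ring
    simp only [h2]
    have c1 : Continuous fun x => (mFourier γ x).re * w x :=
      (Complex.continuous_re.comp (mFourier γ).continuous).mul hw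
    have c2 : Continuous fun x => ε * ((mFourier γ x).re * w x) := continuous_const.mul c1
    rw [integral_sub (integrable_cont_real _ hw)
      (integrable_cont_real _ c2), integral_const_mul, e4, ← mul_assoc, hε2]
    ring
  have h3 := (integral_eq_zero_iff_of_nonneg hg0 (integrable_cont_real _ hgc)).1 hi
  filter_upwards [h3] with x hx
  have h4 : (1 - ε * (mFourier γ x).re) * w x = 0 := hx
  rcases mul_eq_zero.1 h4 with h5 | h5
  · right
    have h6 : ((ε : ℂ) * mFourier γ x) = 1 := by
      apply one_of_re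
      · rw [norm_mul, norm_mF, mul_one, Complex.norm_real, Real.norm_eq_abs, hεa]
      · rw [Complex.re_ofReal_mul]
        linarith
    have h7 : (ε : ℂ) * ε = 1 := by exact_mod_cast hε2
    calc mFourier γ x = ((ε : ℂ) * ε) * mFourier γ x := by rw [h7, one_mul]
      _ = ε * (ε * mFourier γ x) := by ring
      _ = ε := by rw [h6, mul_one]
  · left
    exact h5

theorem t : StmStr := by
  classical
  intro J _ Φ h0 ρ _ hint hD hDD hκ
  set M : ℝ := ρ.real Set.univ with hM
  obtain ⟨c, hc1, hc2⟩ := dens_trig Φ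
  -- the total mass
  have hm : 0 < ∫ x, dens Φ x ∂(vol J) := by
    have h1 : 0 ≤ ∫ x, dens Φ x ∂(vol J) := integral_nonneg fun x => dens_nonneg _ _
    refine lt_of_le_of_ne h1 fun h2 => ?_
    have h3 := (integral_eq_zero_iff_of_nonneg (fun x => dens_nonneg Φ x)
      (integrable_cont_real _ (continuous_dens Φ))).1 h2.symm
    obtain ⟨x, hx1, hx2⟩ := (h3.and (null_dens h0)).exists
    have h4 : dens Φ x = 0 := hx1
    rw [h4] at hx2
    exact lt_irrefl _ hx2
  have hMm : M = ∫ x, dens Φ x ∂(vol J) := by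
    have h1 : dC Φ 0 ≠ 0 := by
      rw [dC_zero]
      exact_mod_cast hm.ne'
    have h2 := hD 0 h1
    rw [mass_eq, dC_zero] at h2
    exact_mod_cast h2
  have hMpos : 0 < M := by rw [hMm]; exact hm
  have hρ0 : ρ ≠ 0 := by
    rintro rfl
    simp [hM] at hMpos
  have hne : NeZero ρ := ⟨hρ0⟩
  -- characters which are constant almost everywhere
  have aeρ : ∀ (ε : ℝ), (ε = 1 ∨ ε = -1) → ∀ γ : J → ℤ,
      (∫ x, mFourier γ x ∂ρ = ((ε * M : ℝ) : ℂ)) ↔ ∀ᵐ x ∂ρ, mFourier γ x = (ε : ℂ) := by
    intro ε hε γ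
    constructor
    · intro h
      have h1 := ae_of_int ρ (w := fun _ => 1) continuous_const (fun _ => zero_le_one) hε (γ := γ)
        (by
          simp only [Complex.ofReal_one, mul_one, integral_const, smul_eq_mul]
          exact h)
      filter_upwards [h1] with x hx
      rcases hx with hx | hx
      · exact absurd hx one_ne_zero
      · exact hx
    · intro h
      rw [integral_congr_ae h, integral_const, Complex.real_smul]
      push_cast
      ring
  have mem : ∀ γ : J → ℤ, (∫ x, mFourier γ x ∂ρ = (M : ℂ) ∨ ∫ x, mFourier γ x ∂ρ = -(M : ℂ)) ↔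
      ((∀ᵐ x ∂ρ, mFourier γ x = 1) ∨ ∀ᵐ x ∂ρ, mFourier γ x = -1) := by
    intro γ
    have a1 := aeρ 1 (Or.inl rfl) γ
    have a2 := aeρ (-1) (Or.inr rfl) γ
    rw [one_mul, Complex.ofReal_one] at a1
    have e : (((-1 : ℝ) * M : ℝ) : ℂ) = -(M : ℂ) := by push_cast; ring
    have e' : (((-1 : ℝ)) : ℂ) = -1 := by push_cast; ring
    rw [e, e'] at a2
    rw [a1, a2]
  set Γ : AddSubgroup (J → ℤ) :=
    { carrier := {γ | (∀ᵐ x ∂ρ, mFourier γ x = 1) ∨ ∀ᵐ x ∂ρ, mFourier γ x = -1}
      zero_mem' := Or.inl (Eventually.of_forall fun x => by simp [mFourier_zero])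
      add_mem' := by
        rintro γ δ (h1 | h1) (h2 | h2)
        · left
          filter_upwards [h1, h2] with x e1 e2
          rw [mFourier_add, e1, e2, mul_one]
        · right
          filter_upwards [h1, h2] with x e1 e2
          rw [mFourier_add, e1, e2, one_mul]
        · right
          filter_upwards [h1, h2] with x e1 e2
          rw [mFourier_add, e1, e2, mul_one]
        · left
          filter_upwards [h1, h2] with x e1 e2
          rw [mFourier_add, e1, e2]
          ring
      neg_mem' := by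
        rintro γ (h1 | h1)
        · left
          filter_upwards [h1] with x e1
          rw [mFourier_neg, e1, map_one]
        · right
          filter_upwards [h1] with x e1
          rw [mFourier_neg, e1, map_neg, map_one] } with hΓ
  have memΓ : ∀ γ, γ ∈ Γ ↔ ((∀ᵐ x ∂ρ, mFourier γ x = 1) ∨ ∀ᵐ x ∂ρ, mFourier γ x = -1) :=
    fun γ => Iff.rfl
  -- the base point
  have hae : ∀ᵐ x ∂ρ, ∀ γ : J → ℤ, ((∀ᵐ x ∂ρ, mFourier γ x = 1) → mFourier γ x = 1) ∧
      ((∀ᵐ x ∂ρ, mFourier γ x = -1) → mFourier γ x = -1) := by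
    rw [ae_all_iff]
    intro γ
    by_cases h1 : ∀ᵐ x ∂ρ, mFourier γ x = 1
    · by_cases h2 : ∀ᵐ x ∂ρ, mFourier γ x = -1
      · filter_upwards [h1, h2] with x e1 e2
        exact ⟨fun _ => e1, fun _ => e2⟩
      · filter_upwards [h1] with x e1
        exact ⟨fun _ => e1, fun h => absurd h h2⟩
    · by_cases h2 : ∀ᵐ x ∂ρ, mFourier γ x = -1
      · filter_upwards [h2] with x e2
        exact ⟨fun h => absurd h h1, fun _ => e2⟩
      · exact Eventually.of_forall fun x => ⟨fun h => absurd h h1, fun h => absurd h h2⟩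
  obtain ⟨a, ha⟩ := hae.exists
  have haΓ : ∀ γ ∈ Γ, mFourier γ a = 1 ∨ mFourier γ a = -1 := by
    intro γ hγ
    rcases (memΓ γ).1 hγ with h1 | h1
    · exact Or.inl ((ha γ).1 h1)
    · exact Or.inr ((ha γ).2 h1)
  have haeΓ : ∀ᵐ x ∂ρ, ∀ γ ∈ Γ, mFourier γ x = mFourier γ a := by
    filter_upwards [hae] with x hx γ hγ
    rcases (memΓ γ).1 hγ with h1 | h1
    · rw [(hx γ).1 h1, (ha γ).1 h1]
    · rw [(hx γ).2 h1, (ha γ).2 h1]
  have hann : ∀ᵐ x ∂ρ, x - a ∈ annih Γ := by
    filter_upwards [haeΓ] with x hx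
    rw [mem_annih]
    intro γ hγ
    rw [sub_eq_add_neg, mFourier_apply_add, hx γ hγ, ← mFourier_apply_add, add_neg_cancel,
      mFourier_apply_zero]
  -- (i)
  have hi : ∀ κ : J → ℤ, (∀ x ∈ annih Γ, mFourier κ x = 1) → κ ∈ Γ := by
    intro κ h1
    have h2 : ∀ᵐ x ∂ρ, mFourier κ x = mFourier κ a := by
      filter_upwards [hann] with x hx
      have h3 := h1 _ hx
      have h4 : mFourier κ x = mFourier κ (x - a) * mFourier κ a := by
        rw [← mFourier_apply_add, sub_add_cancel]
      rw [h4, h3, one_mul]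
    obtain ⟨n, hn⟩ := hint κ
    have h5 : ∫ x, mFourier κ x ∂ρ = (M : ℂ) * mFourier κ a := by
      rw [integral_congr_ae h2, integral_const, Complex.real_smul]
    have h6 : (M : ℂ) * mFourier κ a = ((n : ℝ) : ℂ) := by
      rw [← h5, hn]
      push_cast
      rfl
    have h7 : |(n : ℝ)| = M := by
      have := congrArg norm h6
      rw [norm_mul, norm_mF, mul_one, Complex.norm_real, Complex.norm_real, Real.norm_eq_abs,
        Real.norm_eq_abs, abs_of_pos hMpos] at this
      exact this.symm
    rw [memΓ, ← mem, h5, h6]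
    rcases abs_choice (n : ℝ) with h8 | h8
    · left
      rw [← h7, h8]
    · right
      rw [← h7, h8]
      push_cast
      ring
  -- (ii)
  have hii : ∀ μ ν : J → ℤ, dC Φ μ ≠ 0 → dC Φ ν ≠ 0 → μ - ν ∈ Γ → μ = ν := by
    intro μ ν h1 h2 h3
    have h4 := hDD μ ν h1 h2
    have h5 : ∃ ε : ℝ, (ε = 1 ∨ ε = -1) ∧
        ∫ x, mFourier (μ - ν) x * (dens Φ x : ℂ) ∂(vol J)
          = ((ε * ∫ x, dens Φ x ∂(vol J) : ℝ) : ℂ) := by
      have h6 : dC Φ (μ - ν) = ∫ x, mFourier (μ - ν) x * (dens Φ x : ℂ) ∂(vol J) := rfl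
      rw [← h6, ← h4, ← hMm]
      rcases (mem _).2 ((memΓ _).1 h3) with h7 | h7
      · exact ⟨1, Or.inl rfl, by rw [h7, one_mul]⟩
      · exact ⟨-1, Or.inr rfl, by rw [h7]; push_cast; ring⟩
    obtain ⟨ε, hε, h6⟩ := h5
    have h7 := ae_of_int (vol J) (continuous_dens Φ) (dens_nonneg Φ) hε h6
    have h8 : ∀ᵐ x ∂(vol J), mFourier (2 • (μ - ν)) x = 1 := by
      filter_upwards [h7, null_dens h0] with x hx hx'
      rcases hx with hx | hx
      · rw [hx] at hx'
        exact absurd hx' (lt_irrefl _)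
      · rw [mFourier_nsmul, hx]
        rcases hε with h | h <;> rw [h] <;> norm_num
    have h9 : 2 • (μ - ν) = 0 := by
      by_contra hcon
      have h10 := null_root hcon
      rw [ae_iff] at h8
      have h11 : vol J Set.univ = 0 := by
        refine measure_mono_null (t := {x | mFourier (2 • (μ - ν)) x = 1} ∪
          {x | ¬ mFourier (2 • (μ - ν)) x = 1}) ?_ (measure_union_null h10 h8)
        intro x _
        by_cases h : mFourier (2 • (μ - ν)) x = 1
        · exact Or.inl h
        · exact Or.inr h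
      rw [measure_univ] at h11
      exact one_ne_zero h11
    funext j
    have h12 := congrFun h9 j
    simp only [Pi.smul_apply, Pi.sub_apply, nsmul_eq_mul, Pi.zero_apply] at h12
    push_cast at h12
    omega
  refine ⟨Γ, a, fun γ => ?_, haΓ, fun σ hσ f hf => ?_⟩
  · rw [memΓ, ← mem]
  · have hσp := hσ.isProb
    set σ' : Measure (UnitAddTorus J) := σ.map (fun x => a + x) with hσ'
    have hmeas : Measurable fun x : UnitAddTorus J => a + x := by fun_prop
    have hfin : IsFiniteMeasure σ' := Measure.isFiniteMeasure_map _ _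
    have hmap : ∀ g : UnitAddTorus J → ℂ, Continuous g → ∫ x, g x ∂σ' = ∫ x, g (a + x) ∂σ :=
      fun g hg => integral_map (by fun_prop) hg.aestronglyMeasurable
    have hdc : Continuous fun x => (dens Φ x : ℂ) :=
      Complex.continuous_ofReal.comp (continuous_dens Φ)
    rw [← hmap (fun x => f x * (dens Φ x : ℂ)) (hf.mul hdc)]
    refine integral_eq_of_fourier' (μ := ρ) (ρ := σ') (q := fun x => (dens Φ x : ℂ)) hdc
      (fun n => ?_) hf
    rw [hmap (fun x => mFourier n x * (dens Φ x : ℂ)) ((mFourier n).continuous.mul hdc)]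
    -- the right side
    have hR : ∫ x, mFourier n (a + x) * (dens Φ (a + x) : ℂ) ∂σ =
        ∑ μ ∈ c.support, if n + μ ∈ Γ then (c μ : ℂ) * mFourier (n + μ) a else 0 := by
      have h1 : ∀ x, mFourier n (a + x) * (dens Φ (a + x) : ℂ) =
          ∑ μ ∈ c.support, ((c μ : ℂ) * mFourier (n + μ) a) * mFourier (n + μ) x := by
        intro x
        rw [hc1]
        unfold trig Finsupp.sum
        rw [Finset.mul_sum]
        refine Finset.sum_congr rfl fun μ _ => ?_
        rw [mul_assoc, ← mFourier_apply_add, mFourier_add]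
        ring
      simp only [h1]
      rw [integral_finsetSum _ fun μ _ => (integrable_cont _ (by fun_prop))]
      refine Finset.sum_congr rfl fun μ _ => ?_
      rw [integral_const_mul]
      split_ifs with h2
      · rw [hσ.integral_one fun x hx => mem_annih.1 hx _ h2, mul_one]
      · rw [hσ.integral_zero, mul_zero]
        by_contra hcon
        push Not at hcon
        exact h2 (hi _ hcon)
    have hR' : ∫ x, mFourier n (a + x) * (dens Φ (a + x) : ℂ) ∂σ = ∫ x, mFourier n x ∂ρ := by
      rw [hR]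
      by_cases hex : ∃ μ ∈ c.support, n + μ ∈ Γ
      · obtain ⟨μ, hμ, hμΓ⟩ := hex
        have hcμ : (c μ : ℂ) ≠ 0 := by
          have := Finsupp.mem_support_iff.1 hμ
          exact_mod_cast this
        have hdμ : dC Φ (-μ) = (c μ : ℂ) := by rw [hc2, neg_neg]
        rw [Finset.sum_eq_single μ]
        · rw [if_pos hμΓ, ← hdμ, ← hD (-μ) (by rw [hdμ]; exact hcμ), mul_comm,
            ← integral_const_mul]
          refine integral_congr_ae ?_
          filter_upwards [haeΓ] with x hx
          rw [← hx _ hμΓ, ← mFourier_add]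
          congr 2
          abel
        · intro ν hν hne
          rw [if_neg]
          intro hνΓ
          apply hne
          have h1 : (-μ) - (-ν) ∈ Γ := by
            have h2 := Γ.sub_mem hνΓ hμΓ
            have e : n + ν - (n + μ) = -μ - -ν := by abel
            rwa [e] at h2
          have h3 := hii (-μ) (-ν) (by rw [hdμ]; exact hcμ) (by
            rw [hc2, neg_neg]
            have := Finsupp.mem_support_iff.1 hν
            exact_mod_cast this) h1
          exact (neg_injective h3).symm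
        · intro h
          exact absurd hμ h
      · rw [Finset.sum_eq_zero]
        · symm
          by_contra hne
          obtain ⟨γ, hγ, h1⟩ := hκ n hne
          apply hex
          refine ⟨-γ, ?_, ?_⟩
          · rw [Finsupp.mem_support_iff]
            intro h2
            apply hγ
            rw [hc2, h2]
            simp
          · rw [memΓ, ← mem, ← sub_eq_add_neg]
            exact h1
        · intro μ hμ
          rw [if_neg fun h => hex ⟨μ, hμ, h⟩]
    exact hR'.symm

end Pool.Agent.H70FC
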