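import Pool.Agent.Y798.FC.Stm2
import Pool.Agent.Y674.FC.C

set_option autoImplicit false

/-! FC-WORDS: orbit sums of the symplectic group are integer combinations of words. -/

namespace Pool.Agent.H70FC.Words

open Finset UnitAddTorus Polynomial Pool.Agent.Y798.FC Pool.Agent.Y139.ID Pool.Agent.Y674.FC

theorem exists_pn (n : ℕ) : ∃ P : ℤ[X], ∀ z w : ℂ, z * w = 1 → aeval (z + w) P = z ^ n + w ^ n := by
  induction n using Nat.twoStepInduction with
  | zero => exact ⟨2, fun z w _ => by simp only [map_ofNat, pow_zero]; norm_num⟩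
  | one => exact ⟨X, fun z w _ => by simp⟩
  | more n h1 h2 =>
    obtain ⟨P, hP⟩ := h1
    obtain ⟨Q, hQ⟩ := h2
    refine ⟨X * Q - P, fun z w h => ?_⟩
    rw [map_sub, map_mul, aeval_X, hP z w h, hQ z w h]
    linear_combination (z ^ n + w ^ n) * h

theorem exists_pz (n : ℤ) : ∃ P : ℤ[X], ∀ z : ℂ, z ≠ 0 →
    aeval (z + z⁻¹) P = z ^ n + z ^ (-n) := by
  obtain ⟨k, hk⟩ := n.eq_nat_or_neg
  obtain ⟨P, hP⟩ := exists_pn k
  refine ⟨P, fun z hz => ?_⟩
  rw [hP z z⁻¹ (mul_inv_cancel₀ hz)]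
  rcases hk with rfl | rfl
  · rw [zpow_neg, zpow_natCast, inv_pow]
  · rw [neg_neg, zpow_neg, zpow_natCast, inv_pow, add_comm]

variable {g : ℕ}

/-- the traces of the two-dimensional blocks -/
noncomputable def yy (x : UnitAddTorus (Fin g)) (i : Fin g) : ℂ := ev x i + (ev x i)⁻¹

/-- the elementary symmetric functions of the `yy` -/
noncomputable def E (k : ℕ) (x : UnitAddTorus (Fin g)) : ℂ :=
  ∑ S ∈ powersetCard k univ, ∏ i ∈ S, yy x i

theorem orb_eq (μ : Fin g → ℤ) (x : UnitAddTorus (Fin g)) : orb (sympW g) μ x =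
    ∑ σ : Equiv.Perm (Fin g), ∏ i, (ev x (σ i) ^ μ i + ev x (σ i) ^ (-μ i)) := by
  classical
  unfold orb
  rw [← finsum_comp_equiv (Equiv.ofBijective _ (toW_bij g)), finsum_eq_sum_of_fintype,
    Fintype.sum_prod_type, ← Equiv.sum_comp (Equiv.inv (Equiv.Perm (Fin g)))]
  refine sum_congr rfl fun σ _ => ?_
  have h1 : ∏ i, (ev x (σ i) ^ μ i + ev x (σ i) ^ (-μ i)) =
      ∏ i, ∑ u : ℤˣ, ev x i ^ ((u : ℤ) * μ (σ⁻¹ i)) := by
    rw [← Equiv.prod_comp σ (fun i => ∑ u : ℤˣ, ev x i ^ ((u : ℤ) * μ (σ⁻¹ i)))]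
    refine prod_congr rfl fun i _ => ?_
    have h2 : σ⁻¹ (σ i) = i := by simp
    rw [h2, UnitsInt.univ, sum_pair (by decide)]
    simp
  rw [h1, prod_univ_sum, Fintype.piFinset_univ]
  refine sum_congr rfl fun s _ => ?_
  rw [mFourier_ev]
  rfl

/-- the pullbacks of the integer combinations of words -/
def Sub (g : ℕ) : Subalgebra ℤ (UnitAddTorus (Fin g) → ℂ) where
  carrier := {F | ∃ G ∈ Submodule.span ℤ (wordFun (g + g)), ∀ x, F x = G (dbl x)}
  mul_mem' := by
    rintro F F' ⟨G, hG, h⟩ ⟨G', hG', h'⟩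
    refine ⟨G * G', ?_, fun x => by rw [Pi.mul_apply, Pi.mul_apply, h, h']⟩
    have h1 : G * G' ∈ Submodule.span ℤ (wordFun (g + g)) * Submodule.span ℤ (wordFun (g + g)) :=
      Submodule.mul_mem_mul hG hG'
    rw [Submodule.span_mul_span] at h1
    refine Submodule.span_mono ?_ h1
    rintro f hf
    obtain ⟨a, ha, b, hb, rfl⟩ := Set.mem_mul.1 hf
    exact word_mul ha hb
  add_mem' := by
    rintro F F' ⟨G, hG, h⟩ ⟨G', hG', h'⟩
    exact ⟨G + G', add_mem hG hG', fun x => by rw [Pi.add_apply, Pi.add_apply, h, h']⟩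
  algebraMap_mem' := fun n => by
    refine ⟨n • (1 : UnitAddTorus (Fin (g + g)) → ℂ),
      Submodule.smul_mem _ _ (Submodule.subset_span word_one), fun x => ?_⟩
    simp

theorem mem_Sub {F : UnitAddTorus (Fin g) → ℂ} : F ∈ Sub g ↔
    ∃ G ∈ Submodule.span ℤ (wordFun (g + g)), ∀ x, F x = G (dbl x) := Iff.rfl

theorem coeff_prod {N : ℕ} (w : Fin N → ℂ) (k : ℕ) :
    (∏ i, (1 + C (w i) * X)).coeff k = ∑ S ∈ powersetCard k univ, ∏ i ∈ S, w i := by
  classical
  rw [prod_one_add, finsetSum_coeff]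
  have h1 : ∀ t : Finset (Fin N), (∏ i ∈ t, (C (w i) * X)).coeff k =
      if t.card = k then ∏ i ∈ t, w i else 0 := by
    intro t
    rw [prod_mul_distrib, prod_const, ← map_prod, coeff_C_mul_X_pow]
    simp only [eq_comm]
  simp only [h1]
  rw [← sum_filter, ← powersetCard_eq_filter]

theorem dbl_prod (x : UnitAddTorus (Fin g)) :
    ∏ j : Fin (g + g), (1 + C (ev (dbl x) j) * X) = ∏ i, ((1 + X ^ 2) + C (yy x i) * X) := by
  rw [Fin.prod_univ_add, ← prod_mul_distrib]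
  refine prod_congr rfl fun i _ => ?_
  have h1 : ev (dbl x) (Fin.castAdd g i) = ev x i := by
    unfold ev dbl
    rw [Fin.append_left]
  have h2 : ev (dbl x) (Fin.natAdd g i) = (ev x i)⁻¹ := by
    rw [← ev_neg]
    unfold ev dbl
    rw [Fin.append_right]
  rw [h1, h2, yy, C_add]
  have h3 : (C (ev x i) : ℂ[X]) * C (ev x i)⁻¹ = 1 := by
    rw [← C_mul, mul_inv_cancel₀ (ev_ne x i), C_1]
  linear_combination X ^ 2 * h3

/-- the integer coefficients -/
noncomputable def cc (g m j : ℕ) : ℤ := if j ≤ m then ((1 + X ^ 2 : ℤ[X]) ^ (g - j)).coeff (m - j) else 0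

theorem coeff_blocks (x : UnitAddTorus (Fin g)) (m : ℕ) :
    (∏ i, ((1 + X ^ 2) + C (yy x i) * X)).coeff m =
      ∑ j ∈ range (g + 1), (cc g m j : ℂ) * E j x := by
  classical
  simp only [add_comm (1 + X ^ 2 : ℂ[X])]
  rw [prod_add, sum_powerset, finsetSum_coeff, card_univ, Fintype.card_fin]
  refine sum_congr rfl fun j hj => ?_
  rw [finsetSum_coeff, E, mul_sum]
  refine sum_congr rfl fun t ht => ?_
  obtain ⟨_, ht⟩ := mem_powersetCard.1 ht
  rw [prod_mul_distrib, prod_const, prod_const, ht, ← map_prod, ← compl_eq_univ_sdiff, card_compl,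
    Fintype.card_fin, ht, mul_assoc, coeff_C_mul, coeff_X_pow_mul', cc]
  have h1 : ((1 + X ^ 2 : ℂ[X]) ^ (g - j)) = ((1 + X ^ 2 : ℤ[X]) ^ (g - j)).map (Int.castRingHom ℂ) := by
    simp
  rw [h1, coeff_map]
  split_ifs with h
  · simp [mul_comm]
  · simp

theorem cc_self (g m : ℕ) : cc g m m = 1 := by
  unfold cc
  rw [if_pos le_rfl, Nat.sub_self, coeff_zero_eq_eval_zero]
  simp

theorem es_dbl (x : UnitAddTorus (Fin g)) {m : ℕ} (hm : m ≤ g) :
    es m (dbl x) = E m x + ∑ j ∈ range m, (cc g m j : ℂ) * E j x := by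
  have h1 : es m (dbl x) = ∑ j ∈ range (g + 1), (cc g m j : ℂ) * E j x := by
    rw [← coeff_blocks, ← dbl_prod, coeff_prod]
    rfl
  rw [h1, ← sum_subset (range_mono (show m + 1 ≤ g + 1 by omega)), sum_range_succ, cc_self,
    Int.cast_one, one_mul, add_comm]
  intro j _ hj
  have : ¬ j ≤ m := by
    simpa [Nat.lt_succ_iff] using hj
  rw [cc, if_neg this, Int.cast_zero, zero_mul]

theorem E_mem {m : ℕ} (hm : m ≤ g) : (E m : UnitAddTorus (Fin g) → ℂ) ∈ Sub g := by
  induction m using Nat.strong_induction_on with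
  | _ m ih =>
    have h1 : (E m : UnitAddTorus (Fin g) → ℂ) = (fun x => es m (dbl x)) -
        ∑ j ∈ range m, cc g m j • (E j : UnitAddTorus (Fin g) → ℂ) := by
      ext x
      rw [Pi.sub_apply, es_dbl x hm, Finset.sum_apply]
      simp only [Pi.smul_apply, zsmul_eq_mul]
      ring
    rw [h1]
    refine sub_mem ?_ (sum_mem fun j hj => ?_)
    · exact ⟨es m, Submodule.subset_span (word_es m (by omega)), fun x => rfl⟩
    · have hj := mem_range.1 hj
      exact zsmul_mem (ih j hj (by omega)) _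

theorem t : StmWords := by
  classical
  intro g μ
  choose P hP using exists_pz
  set Q : MvPolynomial (Fin g) ℤ :=
    ∑ σ : Equiv.Perm (Fin g), ∏ i, Polynomial.aeval (MvPolynomial.X (σ i)) (P (μ i)) with hQ
  have hQs : Q.IsSymmetric := by
    intro τ
    rw [hQ, map_sum]
    refine Fintype.sum_equiv (Equiv.mulLeft τ) _ _ fun σ => ?_
    rw [map_prod]
    refine prod_congr rfl fun i _ => ?_
    rw [← Polynomial.aeval_algHom_apply, MvPolynomial.rename_X]
    rfl
  obtain ⟨p, hp⟩ := MvPolynomial.esymmAlgHom_fin_surjective ℤ (le_refl g) ⟨Q, hQs⟩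
  have hp' : MvPolynomial.aeval (fun i : Fin g => MvPolynomial.esymm (Fin g) ℤ (i + 1)) p = Q := by
    rw [← MvPolynomial.esymmAlgHom_apply, hp]
  set F : UnitAddTorus (Fin g) → ℂ :=
    MvPolynomial.aeval (fun i : Fin g => (E (i + 1) : UnitAddTorus (Fin g) → ℂ)) p with hF
  have hFm : F ∈ Sub g := by
    have h1 : F ∈ Algebra.adjoin ℤ
        (Set.range fun i : Fin g => (E (i + 1) : UnitAddTorus (Fin g) → ℂ)) := by
      rw [Algebra.adjoin_range_eq_range_aeval]
      exact ⟨p, rfl⟩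
    refine Algebra.adjoin_le ?_ h1
    rintro f ⟨i, rfl⟩
    exact E_mem (by omega)
  obtain ⟨G, hG, hGF⟩ := mem_Sub.1 hFm
  refine ⟨G, hG, fun x => ?_⟩
  rw [← hGF, orb_eq]
  have h4 : MvPolynomial.aeval (yy x) Q =
      ∑ σ : Equiv.Perm (Fin g), ∏ i, (ev x (σ i) ^ μ i + ev x (σ i) ^ (-μ i)) := by
    rw [hQ, map_sum]
    refine sum_congr rfl fun σ _ => ?_
    rw [map_prod]
    refine prod_congr rfl fun i _ => ?_
    rw [← Polynomial.aeval_algHom_apply, MvPolynomial.aeval_X, yy, hP _ _ (ev_ne x _)]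
  have h6 : MvPolynomial.aeval (yy x) Q = MvPolynomial.aeval (fun i : Fin g =>
      MvPolynomial.aeval (yy x) (MvPolynomial.esymm (Fin g) ℤ (i + 1))) p := by
    rw [← hp']
    exact MvPolynomial.comp_aeval_apply (R := ℤ) (φ := MvPolynomial.aeval (yy x)) _ p
  rw [← h4, h6, hF]
  have h5 : ∀ q : MvPolynomial (Fin g) ℤ,
      (MvPolynomial.aeval (fun i : Fin g => (E (i + 1) : UnitAddTorus (Fin g) → ℂ)) q) x =
      MvPolynomial.aeval (fun i : Fin g => E (i + 1) x) q := by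
    intro q
    have := MvPolynomial.comp_aeval_apply (R := ℤ)
      (φ := Pi.evalAlgHom ℤ (fun _ : UnitAddTorus (Fin g) => ℂ) x)
      (fun i : Fin g => (E (i + 1) : UnitAddTorus (Fin g) → ℂ)) q
    simpa using this
  rw [h5]
  congr 1
  ext i
  simp [MvPolynomial.esymm, E, map_sum, map_prod]

end Pool.Agent.H70FC.Words
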